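import Pool.Agent.W258.P4.Cons

/-!
# Chollet's inequality and the Bapat-Sunder inequality for 4 x 4 matrices (MP_6947cd_al)

For positive semidefinite complex `4 × 4` matrices `A`, `B` one has
`per (A ∘ B) ≤ per A * ∏ B i i ≤ per A * per B`. The proof averages the permanent-on-top
quadratic form inequality of `Pool.Agent.W258.P4` over decomposable vectors built from a
factorization `B = Cᴴ C`.
-/

set_option autoImplicit false
open Matrix
open scoped ComplexOrder BigOperators

namespace Pool.Agent.Results.MP_6947cd_al.CholletFour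

open Pool.W258.P4

theorem permanent_im (A : Matrix (Fin 4) (Fin 4) ℂ) (hA : A.IsHermitian) :
    A.permanent.im = 0 := by
  have h : (starRingEnd ℂ) A.permanent = A.permanent := by
    have h1 : (starRingEnd ℂ) A.permanent = Aᵀ.permanent := by
      unfold Matrix.permanent
      rw [map_sum]
      apply Finset.sum_congr rfl
      intro σ _
      rw [map_prod]
      apply Finset.prod_congr rfl
      intro i _
      rw [Matrix.transpose_apply, starRingEnd_apply]
      exact hA.apply i (σ i)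
    rw [h1, Matrix.permanent_transpose]
  exact Complex.conj_eq_iff_im.mp h

theorem pr_had (A B : Matrix (Fin 4) (Fin 4) ℂ) (ρ : Equiv.Perm (Fin 4)) :
    pr (A ⊙ B) ρ = pr A ρ * pr B ρ := by
  unfold pr
  rw [← Finset.prod_mul_distrib]
  rfl

theorem pr_one (A : Matrix (Fin 4) (Fin 4) ℂ) : pr A 1 = ∏ i, A i i := rfl

/-- decomposable vectors -/
noncomputable def xf (C : Matrix (Fin 4) (Fin 4) ℂ) (f : Fin 4 → Fin 4)
    (τ : Equiv.Perm (Fin 4)) : ℂ := ∏ t, C (f t) (τ t)

theorem sum_xf (C : Matrix (Fin 4) (Fin 4) ℂ) (ρ τ : Equiv.Perm (Fin 4)) :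
    ∑ f : Fin 4 → Fin 4, (starRingEnd ℂ) (xf C f τ) * xf C f (ρ * τ) = pr (Cᴴ * C) ρ := by
  have h1 : ∀ f : Fin 4 → Fin 4, (starRingEnd ℂ) (xf C f τ) * xf C f (ρ * τ) =
      ∏ t, ((starRingEnd ℂ) (C (f t) (τ t)) * C (f t) (ρ (τ t))) := by
    intro f
    unfold xf
    rw [map_prod, ← Finset.prod_mul_distrib]
    rfl
  rw [Finset.sum_congr rfl (fun f _ => h1 f)]
  have h2 := Finset.prod_univ_sum (fun _ : Fin 4 => (Finset.univ : Finset (Fin 4)))
    (fun t k => (starRingEnd ℂ) (C k (τ t)) * C k (ρ (τ t)))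
  rw [Fintype.piFinset_univ] at h2
  rw [← h2]
  unfold pr
  rw [← Equiv.prod_comp τ (fun s => (Cᴴ * C) s (ρ s))]
  apply Finset.prod_congr rfl
  intro t _
  rw [Matrix.mul_apply]
  rfl

theorem sum_qreg (A C : Matrix (Fin 4) (Fin 4) ℂ) :
    ∑ f : Fin 4 → Fin 4, Qreg A (xf C f) =
      24 * (A.permanent * ∏ i, (Cᴴ * C) i i - (A ⊙ (Cᴴ * C)).permanent) := by
  have hper : ∀ M : Matrix (Fin 4) (Fin 4) ℂ, M.permanent = ∑ σ, pr M σ := by
    intro M
    rw [← Matrix.permanent_transpose]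
    rfl
  set B := Cᴴ * C with hB
  have h1 : ∀ σ ρ : Equiv.Perm (Fin 4), ∑ f : Fin 4 → Fin 4,
      (starRingEnd ℂ) (xf C f σ) * (xf C f σ - xf C f (ρ * σ)) = pr B 1 - pr B ρ := by
    intro σ ρ
    have h2 := sum_xf C 1 σ
    have h3 := sum_xf C ρ σ
    rw [one_mul] at h2
    rw [← h2, ← h3, ← Finset.sum_sub_distrib]
    exact Finset.sum_congr rfl (fun f _ => by ring)
  unfold Qreg
  rw [Finset.sum_comm]
  have h4 : ∀ ρ : Equiv.Perm (Fin 4), ∑ f : Fin 4 → Fin 4, pr A ρ *
      ∑ σ : Equiv.Perm (Fin 4), (starRingEnd ℂ) (xf C f σ) * (xf C f σ - xf C f (ρ * σ)) =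
      24 * (pr A ρ * pr B 1 - pr (A ⊙ B) ρ) := by
    intro ρ
    rw [← Finset.mul_sum, Finset.sum_comm, Finset.sum_congr rfl (fun σ _ => h1 σ ρ),
      Finset.sum_const, pr_had]
    have : (Finset.univ : Finset (Equiv.Perm (Fin 4))).card = 24 := by
      rw [Finset.card_univ, Fintype.card_perm, Fintype.card_fin]
      rfl
    rw [this, nsmul_eq_mul]
    push_cast
    ring
  rw [Finset.sum_congr rfl (fun ρ _ => h4 ρ), ← Finset.mul_sum, Finset.sum_sub_distrib,
    ← Finset.sum_mul, ← hper, ← hper, pr_one]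

theorem qreg_single (B : Matrix (Fin 4) (Fin 4) ℂ) :
    Qreg B (Pi.single 1 1) = B.permanent - ∏ i, B i i := by
  have hper : ∀ M : Matrix (Fin 4) (Fin 4) ℂ, M.permanent = ∑ σ, pr M σ := by
    intro M
    rw [← Matrix.permanent_transpose]
    rfl
  unfold Qreg
  have h1 : ∀ ρ : Equiv.Perm (Fin 4), ∑ σ : Equiv.Perm (Fin 4),
      (starRingEnd ℂ) ((Pi.single 1 1 : Equiv.Perm (Fin 4) → ℂ) σ) *
        ((Pi.single 1 1 : Equiv.Perm (Fin 4) → ℂ) σ -
          (Pi.single 1 1 : Equiv.Perm (Fin 4) → ℂ) (ρ * σ)) = 1 - (if ρ = 1 then 1 else 0) := by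
    intro ρ
    rw [Finset.sum_eq_single 1]
    · rw [Pi.single_eq_same, mul_one, map_one, one_mul]
      congr 1
      by_cases h : ρ = 1
      · rw [h, Pi.single_eq_same, if_pos rfl]
      · rw [Pi.single_eq_of_ne h, if_neg h]
    · intro σ _ hσ
      rw [Pi.single_eq_of_ne hσ, map_zero, zero_mul]
    · intro h
      exact absurd (Finset.mem_univ _) h
  rw [Finset.sum_congr rfl (fun ρ _ => by rw [h1 ρ]), hper]
  simp only [mul_sub, mul_one, Finset.sum_sub_distrib, mul_ite, mul_zero]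
  rw [Finset.sum_ite_eq' Finset.univ (1 : Equiv.Perm (Fin 4)) (fun ρ => pr B ρ),
    if_pos (Finset.mem_univ _), pr_one]

theorem diag_real (B : Matrix (Fin 4) (Fin 4) ℂ) (hB : B.PosSemidef) :
    0 ≤ ∏ i, B i i := Finset.prod_nonneg (fun _ _ => hB.diag_nonneg)

open scoped MatrixOrder in
theorem exists_factor (B : Matrix (Fin 4) (Fin 4) ℂ) (hB : B.PosSemidef) :
    ∃ C : Matrix (Fin 4) (Fin 4) ℂ, B = Cᴴ * C := by
  obtain ⟨C, hC⟩ := CStarAlgebra.nonneg_iff_eq_star_mul_self.mp hB.nonneg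
  rw [Matrix.star_eq_conjTranspose] at hC
  exact ⟨C, hC⟩

theorem had_herm (A B : Matrix (Fin 4) (Fin 4) ℂ) (hA : A.IsHermitian) (hB : B.IsHermitian) :
    (A ⊙ B).IsHermitian := by
  ext i j
  rw [Matrix.conjTranspose_apply, Matrix.hadamard_apply, Matrix.hadamard_apply, star_mul']
  rw [hA.apply, hB.apply]

/-- For complex positive semidefinite `4 × 4` matrices, `per (A ∘ B) ≤ per A * ∏ B i i` and
`per A * ∏ B i i ≤ per A * per B` (in the order of the complex numbers, so all three numbers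
are real); in particular `per (A ∘ B) ≤ per A * per B`. -/
theorem result :
    ∀ A B : Matrix (Fin 4) (Fin 4) ℂ, A.PosSemidef → B.PosSemidef →
      (A ⊙ B).permanent ≤ A.permanent * ∏ i, B i i ∧
      A.permanent * ∏ i, B i i ≤ A.permanent * B.permanent := by
  intro A B hA hB
  have hQ := qreg_nonneg
  have hAi := permanent_im A hA.isHermitian
  have hBi := permanent_im B hB.isHermitian
  have hABi := permanent_im (A ⊙ B) (had_herm A B hA.isHermitian hB.isHermitian)
  have hdA := diag_real A hA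
  have hdB := diag_real B hB
  -- the permanent dominates the product of the diagonal entries
  have hdiag : ∀ M : Matrix (Fin 4) (Fin 4) ℂ, M.PosSemidef → ∏ i, M i i ≤ M.permanent := by
    intro M hM
    have h1 := hQ M hM (Pi.single 1 1)
    rw [qreg_single, Complex.sub_re] at h1
    rw [Complex.le_def]
    have h2 := (Complex.le_def.mp (diag_real M hM)).2
    have h3 := permanent_im M hM.isHermitian
    refine ⟨by linarith, ?_⟩
    rw [h3, ← h2]
    rfl
  have hBS : (A ⊙ B).permanent ≤ A.permanent * ∏ i, B i i := by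
    obtain ⟨C, hC⟩ := exists_factor B hB
    have h1 := sum_qreg A C
    rw [← hC] at h1
    have h2 : 0 ≤ (∑ f : Fin 4 → Fin 4, Qreg A (xf C f)).re := by
      rw [Complex.re_sum]
      exact Finset.sum_nonneg (fun f _ => hQ A hA _)
    rw [h1] at h2
    have h3 : (24 * (A.permanent * ∏ i, B i i - (A ⊙ B).permanent) : ℂ).re =
        24 * ((A.permanent * ∏ i, B i i).re - (A ⊙ B).permanent.re) := by
      have : (24 : ℂ) = ((24 : ℝ) : ℂ) := by norm_num
      rw [this, Complex.re_ofReal_mul, Complex.sub_re]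
    rw [h3] at h2
    rw [Complex.le_def]
    refine ⟨by linarith, ?_⟩
    have h4 : (∏ i, B i i : ℂ).im = 0 := ((Complex.le_def.mp hdB).2).symm
    rw [hABi, Complex.mul_im, hAi, h4]
    ring
  refine ⟨hBS, ?_⟩
  have hA0 : 0 ≤ A.permanent := hdA.trans (hdiag A hA)
  exact mul_le_mul_of_nonneg_left (hdiag B hB) hA0

end Pool.Agent.Results.MP_6947cd_al.CholletFour
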